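import Mathlib

set_option autoImplicit false


namespace Pool.Agent.Helper59.Reserve.GHTranspose

/-- The element of the dihedral group of order eight with the number `m`: `r m` for `m < 4`, and
`sr (m - 4)` for `4 ≤ m < 8`. -/
def dec (m : ℕ) : DihedralGroup 4 :=
  if m < 4 then DihedralGroup.r (m : ZMod 4) else DihedralGroup.sr ((m - 4 : ℕ) : ZMod 4)

/-- The numbers of the entries. -/
def tab : List (List ℕ) :=
  [[0, 0, 0, 0, 0, 0, 0, 0, 0, 0, 0, 0, 0, 0, 0, 0],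
   [0, 4, 7, 1, 2, 6, 5, 3, 0, 6, 5, 3, 2, 4, 7, 1],
   [0, 5, 1, 4, 2, 5, 3, 6, 2, 7, 1, 4, 0, 7, 3, 6],
   [0, 1, 4, 5, 0, 3, 4, 5, 2, 1, 6, 7, 2, 3, 6, 7],
   [0, 2, 0, 2, 6, 4, 6, 4, 7, 5, 7, 5, 1, 3, 3, 1],
   [0, 6, 7, 3, 4, 2, 1, 5, 5, 3, 0, 6, 1, 7, 4, 2],
   [0, 7, 3, 4, 4, 1, 5, 2, 7, 0, 6, 1, 3, 6, 2, 5],
   [0, 3, 4, 7, 6, 7, 2, 1, 5, 6, 1, 0, 3, 2, 5, 4],
   [0, 2, 2, 0, 5, 5, 7, 7, 1, 1, 3, 3, 6, 6, 4, 4],
   [0, 4, 5, 3, 7, 1, 2, 6, 3, 5, 4, 2, 6, 0, 1, 7],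
   [0, 5, 3, 6, 7, 0, 6, 3, 1, 4, 2, 7, 4, 1, 5, 2],
   [0, 1, 6, 7, 5, 6, 1, 0, 3, 2, 7, 4, 4, 5, 2, 3],
   [0, 0, 2, 2, 1, 3, 3, 1, 6, 4, 4, 6, 7, 5, 7, 5],
   [0, 6, 5, 1, 3, 7, 4, 2, 4, 2, 3, 5, 7, 1, 0, 6],
   [0, 7, 1, 6, 1, 4, 0, 7, 4, 3, 5, 2, 5, 2, 6, 3],
   [0, 3, 6, 5, 3, 2, 7, 4, 6, 7, 2, 1, 5, 4, 1, 0]]

/-- The matrix. -/
def mat (i j : Fin 16) : DihedralGroup 4 := dec ((tab.getD i []).getD j 0)

theorem rows : ∀ i j : Fin 16, i ≠ j → ∀ g : DihedralGroup 4,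
    Fintype.card {k : Fin 16 // mat i k * (mat j k)⁻¹ = g} = 2 := by
  decide +kernel

theorem cols : Fintype.card {k : Fin 16 // mat k 1 * (mat k 4)⁻¹ = DihedralGroup.sr 1} = 0 := by
  decide +kernel

/-- There is a finite group N of order w dividing v and a v×v matrix over N such that, for any two distinct rows, each group element occurs exactly v/w times among the entrywise quotients h_ik h_jk⁻¹, while this fails for some pair of distinct columns. -/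
theorem result :
    ∃ (N : Type) (_ : Group N) (_ : Finite N) (v : ℕ) (H : Fin v → Fin v → N),
      Nat.card N ∣ v ∧
      (∀ i j : Fin v, i ≠ j → ∀ g : N,
        Nat.card {k : Fin v // H i k * (H j k)⁻¹ = g} = v / Nat.card N) ∧
      ¬ (∀ i j : Fin v, i ≠ j → ∀ g : N,
        Nat.card {k : Fin v // H k i * (H k j)⁻¹ = g} = v / Nat.card N) := by
  have hc : Nat.card (DihedralGroup 4) = 8 := by
    rw [DihedralGroup.nat_card]
  refine ⟨DihedralGroup 4, inferInstance, inferInstance, 16, mat, ?_, ?_, ?_⟩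
  · rw [hc]
    exact ⟨2, by norm_num⟩
  · intro i j hij g
    rw [hc, Nat.card_eq_fintype_card, rows i j hij g]
  · intro h
    have h1 := h 1 4 (by decide) (DihedralGroup.sr 1)
    rw [hc, Nat.card_eq_fintype_card, cols] at h1
    norm_num at h1

end Pool.Agent.Helper59.Reserve.GHTranspose
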